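import Pool.Agent.W873.Club4

set_option autoImplicit false

/-!
# Adding a club in `ω_{n+1}` without infinite ground model subset, preserving cardinals

Suppose that `2 ^ ℵ_k = ℵ_{k+1}` for all `k ≤ n` (for example, suppose GCH). There is a forcing
notion which preserves all cardinals and adds a closed and unbounded subset of `ω_{n+1}` which
includes no infinite set of the ground model. For `n = 2` this concerns `ω₃`.

The forcing relation is the one of `Pool.Agent.Helper669.Forcing`: a sentence is the set of the
conditions which force it, `fnot`, `fand`, `fall` are the primitive connectives and `fimp`, `fex`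
are defined from them classically; a name for a subset of a ground model set `K` is a map sending
`x : K` to a set of conditions, and `meets N` says that the generic filter meets `N`.

Proof. Let `P` be a forcing notion of size at most `μ` which adds a club `C ⊆ μ` without infinite
ground model subset which meets all unbounded ground model subsets of `μ` (for `μ = ω`: add a
Cohen real). In the extension force with the closed bounded subsets of `κ = μ⁺` which include no
infinite set of the ground model, ordered by end-extension. This forcing is `μ`-distributive over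
the extension by `P`: define by recursion in the ground model names `c ξ` and ordinals `g ξ < κ`
for `ξ < μ`, such that `c ξ` grows only if `ξ ∈ C`, and then only in the interval
`[g ξ, g (ξ + 1))`. A ground model set `X` which is included in the union of the `c ξ` can meet the
interval of `ξ` only if `ξ ∈ C`; so it meets only finitely many intervals. Here `g` can be chosen
in the ground model since `P` is small. Start with a Cohen real and iterate `n + 1` times.
-/

namespace Pool.Agent.Results.MP_b0cd43_lc.ClubNoInfiniteSubset

open Cardinal Pool.Agent.Helper669.Forcing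

/-- In the extension, the linearly ordered set `K` of the ground model has a subset `C` which is
unbounded, closed (it contains every `z`, not the least element of `K`, such that there are
elements of `C` between `b` and `z` for all `b < z`), and which includes no infinite set
`X ⊆ K` of the ground model. -/
def HasSparseClub (P K : Type) [Preorder P] [LinearOrder K] : Set P :=
  fex fun C : K → Set P =>
    fand (fall fun a : K => fex fun b : K => fand (fground (a < b)) (meets (C b)))
      (fand
        (fall fun z : K => fimp
          (fand (fground (∃ b, b < z)) (fall fun b : K => fall fun _ : b < z =>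
            fex fun x : K => fand (fground (b < x ∧ x < z)) (meets (C x))))
          (meets (C z)))
        (fall fun X : Set K => fall fun _ : X.Infinite =>
          fnot (fall fun x : K => fall fun _ : x ∈ X => meets (C x))))

open Pool.Agent.W873.Club in
theorem hasSparseClub_of_good {P K : Type} [Preorder P] [LinearOrder K] {C : K → Set P}
    (hC : Good C) (hm : ∀ a : K, ∃ b, a < b) (p : P) : p ∈ HasSparseClub P K := by
  refine mem_fex_of_mem C (down_fand (down_fall fun _ => down_fex _) (down_fand
    (down_fall fun _ => down_fimp _ _) (down_fall fun _ => down_fall fun _ => down_fnot _)))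
    ⟨fun a => ?_, fun z => ?_, fun X hX q hq hcon => ?_⟩
  · refine mem_fex.2 fun q hq => ?_
    obtain ⟨r, hr, b, hb, hm'⟩ := hC.hit (Set.Ioi a) (fun a' => by
      obtain ⟨b, hb⟩ := hm (max a a')
      exact ⟨b, (le_max_left _ _).trans_lt hb, (le_max_right _ _).trans_lt hb⟩) q
    exact ⟨r, hr, b, hb, hm'⟩
  · refine mem_fimp.2 fun q hq hprem => ?_
    by_contra hcon
    push Not at hcon
    obtain ⟨r, hr, b, hb, hx⟩ := hC.cl z hprem.1 q fun s hs hm => hcon s hs hm
    obtain ⟨s, hs, x, hx1, hx2⟩ := mem_fex.1 (hprem.2 b hb) r hr
    exact hx x hx1.1 hx1.2 s hs hx2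
  · exact hX ((hC.fin q).subset fun x hx => hcon x hx)

/-- If `2 ^ ℵ_k = ℵ_{k+1}` for all `k ≤ n`, then there is a forcing notion all of whose conditions
force that all cardinals of the ground model are cardinals and that `ω_{n+1}` has a closed
unbounded subset which includes no infinite set of the ground model. -/
theorem result (n : ℕ)
    (h : ∀ k ≤ n, (2 : Cardinal.{0}) ^ ℵ_ (k : Ordinal) = ℵ_ ((k + 1 : ℕ) : Ordinal)) :
    ∃ (P : Type) (_ : Preorder P), Nonempty P ∧ ∀ p : P,
      p ∈ CardinalsPreserved.{0, 0} P ∧
      p ∈ HasSparseClub P (ℵ_ ((n + 1 : ℕ) : Ordinal)).ord.ToType := by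
  obtain ⟨P, hP, hne, _, ⟨C, hC⟩, hpres⟩ := Pool.Agent.W873.Club.stage n h
  refine ⟨P, hP, hne, fun p => ⟨hpres p, hasSparseClub_of_good hC (fun a => ?_) p⟩⟩
  by_contra hcon
  push Not at hcon
  have h1 : IsCofinal ({a} : Set (ℵ_ ((n + 1 : ℕ) : Ordinal)).ord.ToType) :=
    fun b => ⟨a, rfl, hcon b⟩
  have h2 := Order.cof_le h1
  have e1 : ℵ_ ((n + 1 : ℕ) : Ordinal) = Order.succ (ℵ_ (n : Ordinal)) := by
    rw [succ_aleph]; simp
  have hreg : (ℵ_ ((n + 1 : ℕ) : Ordinal)).IsRegular := by
    rw [e1]
    exact isRegular_succ (aleph0_le_aleph _)
  rw [Ordinal.cof_toType, hreg.cof_ord, mk_singleton] at h2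
  exact absurd h2 (not_le.2 (one_lt_aleph0.trans_le (aleph0_le_aleph _)))

end Pool.Agent.Results.MP_b0cd43_lc.ClubNoInfiniteSubset
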